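import Pool.Agent.Helper664_Ext.Sym
import Pool.Agent.Helper664_Ext.Hyper

/-!
# The locus where the exterior algebra property fails is a hypersurface

`K` is a commutative algebra which is free of finite rank over the algebra `ℂ[E]` of polynomial
functions on a vector space `E` (the symmetric algebra of the dual space), and a finite group `W`
acts on it by `ℂ[E]`-algebra automorphisms; `V` is a representation of `W`.  Then there is one
polynomial function `g` on `E` such that, for every point `x` of `E` and every algebra `H` with an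
action of `W` which is the fibre of `K` at `x`, the algebra `(H ⊗ ⋀ V)^W` is an exterior algebra on
`(H ⊗ V)^W` if and only if `g(x) ≠ 0`.

In particular, if the property holds outside a closed subset of `E` of codimension at least two,
then it holds at every point of `E`.
-/

open Module Pool.Agent.Helper664_Ext

theorem Pool.Agent.Results.MP_eacc3c_al.FailureHypersurface.result
    {W : Type*} [Group W] [Finite W] {V : Type*} [AddCommGroup V] [Module ℂ V]
    [FiniteDimensional ℂ V] (τ : W →* (V ≃ₗ[ℂ] V))
    {E : Type*} [AddCommGroup E] [Module ℂ E] [FiniteDimensional ℂ E]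
    -- the family `K` over `E`
    {K : Type*} [CommRing K] [Algebra ℂ K] [Algebra (SymmetricAlgebra ℂ (Dual ℂ E)) K]
    [IsScalarTower ℂ (SymmetricAlgebra ℂ (Dual ℂ E)) K]
    [Module.Free (SymmetricAlgebra ℂ (Dual ℂ E)) K]
    [Module.Finite (SymmetricAlgebra ℂ (Dual ℂ E)) K]
    (ρ : W →* (K ≃ₐ[SymmetricAlgebra ℂ (Dual ℂ E)] K)) :
    ∃ g : SymmetricAlgebra ℂ (Dual ℂ E),
      -- the fibre `H` of `K` at a point `x` of `E`
      ∀ (x : E) {H : Type*} [CommRing H] [Algebra ℂ H] (π : K →ₐ[ℂ] H),
        IsFibre (SymmetricAlgebra.lift (Dual.eval ℂ E x) :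
          SymmetricAlgebra ℂ (Dual ℂ E) →+* ℂ) (π : K →+* H) →
        ∀ σ : W →* (H ≃ₐ[ℂ] H), (∀ w k, σ w (π k) = π (ρ w k)) →
        (IsExteriorOn (UInv σ τ) (AInv σ τ) ↔ SymmetricAlgebra.lift (Dual.eval ℂ E x) g ≠ 0) := by
  letI := algPF E K
  haveI : IsScalarTower ℂ (PolyFun E) K := isScalarTower_algPF
  let b := Module.Free.chooseBasis (SymmetricAlgebra ℂ (Dual ℂ E)) K
  haveI : Module.Free (PolyFun E) K := Module.Free.of_basis (basisPF b)
  haveI : Module.Finite (PolyFun E) K := Module.Finite.of_basis (basisPF b)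
  obtain ⟨g, hg⟩ := exists_hypersurface (actPF ρ) τ
  refine ⟨(symEquiv E).symm g, fun x H _ _ π hπ σ hσ => ?_⟩
  obtain ⟨h1, -⟩ := isExteriorOn_fib_iff ρ τ π x hπ σ hσ
  have h2 := evalAt_symEquiv x ((symEquiv E).symm g)
  rw [AlgEquiv.apply_symm_apply] at h2
  rw [h1, hg x, h2]
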