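import Pool.Agent.Helper664_Ext.Sym

/-!
# Families of parabolic type: the invariants form an exterior algebra at every point

`W` is a finite group acting on `V`, the subgroup `P` is generated by elements which act as
reflections and is the pointwise stabiliser of its fixed space `X`, and `K` is a commutative algebra
which is free of rank `[W : P]` over the algebra `ℂ[X]` of polynomial functions on `X` (the
symmetric algebra of the dual space).  The group `W` acts on `K` by `ℂ[X]`-algebra automorphisms,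
and there is an equivariant linear map `ξ` from the linear forms on `V` to `K` such that the
induced algebra map `ℂ[V] → K` sends an invariant function to its restriction to `X`.

Then for every point `x` of `X` and every algebra `H` with an action of `W` which is the fibre of
`K` at `x`, the algebra `(H ⊗ ⋀ V)^W` is an exterior algebra on `(H ⊗ V)^W`, and the dimension of
the latter is `dim X`.

The intended example is the equivariant cohomology `K = H_S^*(B_e)` of a Springer fibre, for a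
nilpotent element `e` which is regular in a Levi subalgebra whose centre is `X`, and its fibre
`H = H^*(B_e)` at `x = 0`.
-/

open Module Pool.Agent.Helper664_Ext

theorem Pool.Agent.Results.MP_eacc3c_al.ParabolicType.result
    {W : Type*} [Group W] [Finite W] {V : Type*} [AddCommGroup V] [Module ℂ V]
    [FiniteDimensional ℂ V] (τ : W →* (V ≃ₗ[ℂ] V))
    -- the parabolic subgroup `P` and its fixed space `X`
    (P : Subgroup W) (X : Submodule ℂ V)
    (hX : ∀ v, v ∈ X ↔ ∀ p ∈ P, τ p v = v) (hP : ∀ w, w ∈ P ↔ ∀ v ∈ X, τ w v = v)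
    (S : Set W) (hS : Subgroup.closure S = P)
    (hrefl : ∀ s ∈ S, finrank ℂ (LinearMap.range ((τ s : V →ₗ[ℂ] V) - LinearMap.id)) = 1)
    -- the family `K` over `X`
    {K : Type*} [CommRing K] [Algebra ℂ K] [Algebra (SymmetricAlgebra ℂ (Dual ℂ X)) K]
    [IsScalarTower ℂ (SymmetricAlgebra ℂ (Dual ℂ X)) K]
    [Module.Free (SymmetricAlgebra ℂ (Dual ℂ X)) K]
    [Module.Finite (SymmetricAlgebra ℂ (Dual ℂ X)) K]
    (hrank : finrank (SymmetricAlgebra ℂ (Dual ℂ X)) K = P.index)
    (ρ : W →* (K ≃ₐ[SymmetricAlgebra ℂ (Dual ℂ X)] K))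
    -- the equivariant map from `ℂ[V]` to `K`
    (ξ : Dual ℂ V →ₗ[ℂ] K)
    (hξ : ∀ w l, ρ w (ξ l) = ξ (l ∘ₗ (τ w⁻¹ : V →ₗ[ℂ] V)))
    (hinv : ∀ f : SymmetricAlgebra ℂ (Dual ℂ V),
      (∀ w, SymmetricAlgebra.lift
        (SymmetricAlgebra.ι ℂ (Dual ℂ V) ∘ₗ (τ w : V →ₗ[ℂ] V).dualMap) f = f) →
      SymmetricAlgebra.lift ξ f = algebraMap (SymmetricAlgebra ℂ (Dual ℂ X)) K
        (SymmetricAlgebra.lift (SymmetricAlgebra.ι ℂ (Dual ℂ X) ∘ₗ X.subtype.dualMap) f))
    -- the fibre `H` of `K` at a point `x` of `X`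
    (x : X) {H : Type*} [CommRing H] [Algebra ℂ H] (π : K →ₐ[ℂ] H)
    (hπ : IsFibre (SymmetricAlgebra.lift (Dual.eval ℂ X x) :
      SymmetricAlgebra ℂ (Dual ℂ X) →+* ℂ) (π : K →+* H))
    (σ : W →* (H ≃ₐ[ℂ] H)) (hσ : ∀ w k, σ w (π k) = π (ρ w k)) :
    IsExteriorOn (UInv σ τ) (AInv σ τ) ∧ finrank ℂ (UInv σ τ) = finrank ℂ X := by
  letI := algPF X K
  haveI : IsScalarTower ℂ (PolyFun X) K := isScalarTower_algPF
  let b := Module.Free.chooseBasis (SymmetricAlgebra ℂ (Dual ℂ X)) K
  haveI : Module.Free (PolyFun X) K := Module.Free.of_basis (basisPF b)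
  haveI : Module.Finite (PolyFun X) K := Module.Finite.of_basis (basisPF b)
  have hr : finrank (PolyFun X) K = P.index := by
    rw [finrank_eq_card_basis (basisPF b), ← hrank, finrank_eq_card_basis b]
  let c : PolyFun V →ₐ[ℂ] K := (SymmetricAlgebra.lift ξ).comp
    ((symEquiv V).symm : PolyFun V →ₐ[ℂ] SymmetricAlgebra ℂ (Dual ℂ V))
  have hcs : ∀ f : SymmetricAlgebra ℂ (Dual ℂ V),
      c (symEquiv V f) = SymmetricAlgebra.lift ξ f := by
    intro f
    show SymmetricAlgebra.lift ξ ((symEquiv V).symm (symEquiv V f)) = _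
    rw [AlgEquiv.symm_apply_apply]
  have hc : ∀ w f, actPF ρ w (c f) = c (pull (τ w⁻¹ : V →ₗ[ℂ] V) f) := by
    intro w f
    obtain ⟨f, rfl⟩ := (symEquiv V).surjective f
    rw [pull_symEquiv, hcs, hcs]
    have h1 : ((ρ w).restrictScalars ℂ : K →ₐ[ℂ] K).comp (SymmetricAlgebra.lift ξ) =
        (SymmetricAlgebra.lift ξ).comp (SymmetricAlgebra.lift
          (SymmetricAlgebra.ι ℂ (Dual ℂ V) ∘ₗ (τ w⁻¹ : V →ₗ[ℂ] V).dualMap)) := by
      apply SymmetricAlgebra.algHom_ext
      refine LinearMap.ext fun l => ?_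
      show ρ w (SymmetricAlgebra.lift ξ (SymmetricAlgebra.ι ℂ (Dual ℂ V) l)) =
        SymmetricAlgebra.lift ξ (SymmetricAlgebra.lift
          (SymmetricAlgebra.ι ℂ (Dual ℂ V) ∘ₗ (τ w⁻¹ : V →ₗ[ℂ] V).dualMap)
          (SymmetricAlgebra.ι ℂ (Dual ℂ V) l))
      rw [SymmetricAlgebra.lift_ι_apply, SymmetricAlgebra.lift_ι_apply, hξ]
      show _ = SymmetricAlgebra.lift ξ (SymmetricAlgebra.ι ℂ (Dual ℂ V)
        ((τ w⁻¹ : V →ₗ[ℂ] V).dualMap l))
      rw [SymmetricAlgebra.lift_ι_apply]
      rfl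
    exact AlgHom.congr_fun h1 f
  have hi : ∀ f : PolyFun V, (∀ w v, evalAt (τ w v) f = evalAt v f) →
      c f = algebraMap (PolyFun X) K (pull X.subtype f) := by
    intro f hf
    obtain ⟨f, rfl⟩ := (symEquiv V).surjective f
    rw [pull_symEquiv, hcs, hinv f, algPF_algebraMap, AlgEquiv.symm_apply_apply]
    intro w
    apply (symEquiv V).injective
    rw [← pull_symEquiv]
    apply polyFun_ext
    intro v
    exact hf w v
  have key := isExterior_of_rank τ P hX hP S hS hrefl hr (actPF ρ) c hc hi x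
  obtain ⟨h1, h2⟩ := isExteriorOn_fib_iff ρ τ π x hπ σ hσ
  exact ⟨h1.2 key.1, h2.trans key.2⟩
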